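import Pool.Agent.MNU.StmtsU

set_option autoImplicit false

/-!
# MNU, row NOE: weights of clusters with an odd number of roots
-/

namespace Pool.Agent.MNU.H82

open Pool.Agent.MNU

theorem u1_eq (g a b : ℕ) : u1 g a b =
    (2 * (g : ℝ) + 9) * ((a : ℝ) * (a - 1) / 2) - (2 * g + 1) * a * b +
      (2 * (g : ℝ) ^ 2 + 1) / (g + 4) * (b * (b - 1) / 2) + 3 * g * b := rfl

theorem noe : NoeStmt := by
  intro g hg a b ha ha1 hb hab hp
  have hg2 : (2 : ℝ) ≤ g := by exact_mod_cast hg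
  have hP : (0 : ℝ) < g + 4 := by linarith
  have hN : (0 : ℝ) < 2 * (g : ℝ) ^ 2 + 1 := by positivity
  have hgm : (0 : ℝ) < (2 * (g : ℝ) ^ 2 + 1) / (g + 4) := div_pos hN hP
  rw [u1_eq]
  obtain h1 | h1 : a = 1 ∨ 3 ≤ a := by
    rcases ha with ⟨t, rfl⟩; omega
  · subst h1
    have hb1 : 1 ≤ b := by omega
    have hb1' : (1 : ℝ) ≤ b := by exact_mod_cast hb1
    have h2 : 0 ≤ (2 * (g : ℝ) ^ 2 + 1) / (g + 4) * (b * (b - 1) / 2) := by
      apply mul_nonneg hgm.le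
      have : 0 ≤ (b : ℝ) * (b - 1) := mul_nonneg (by linarith) (by linarith)
      linarith
    have h3 : 1 ≤ ((g : ℝ) - 1) * b := by nlinarith
    push_cast
    nlinarith
  obtain h2 | h2 : a = 2 * g + 1 ∨ a + 1 ≤ 2 * g := by
    rcases ha with ⟨t, rfl⟩; omega
  · subst h2
    have hb2 := hp rfl
    obtain ⟨c, hc⟩ : ∃ c : ℕ, b + (c + 1) = 2 * g + 9 := ⟨2 * g + 9 - b - 1, by omega⟩
    have hbr : (b : ℝ) = 2 * g + 8 - c := by
      have : ((b + (c + 1) : ℕ) : ℝ) = ((2 * g + 9 : ℕ) : ℝ) := by rw [hc]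
      push_cast at this
      linarith
    have hc0 : (0 : ℝ) ≤ c := Nat.cast_nonneg c
    have key : (2 * (g : ℝ) + 9) * (((2 * g + 1 : ℕ) : ℝ) * (((2 * g + 1 : ℕ) : ℝ) - 1) / 2) -
        (2 * g + 1) * ((2 * g + 1 : ℕ) : ℝ) * b +
        (2 * (g : ℝ) ^ 2 + 1) / (g + 4) * (b * (b - 1) / 2) + 3 * g * b =
        ((g : ℝ) - 1) * (c + 1) + (2 * (g : ℝ) ^ 2 + 1) / (g + 4) * ((c + 1) * c / 2) := by
      rw [hbr]
      push_cast
      field_simp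
      ring
    rw [key]
    have h3 : 0 ≤ (2 * (g : ℝ) ^ 2 + 1) / (g + 4) * (((c : ℝ) + 1) * c / 2) := by positivity
    nlinarith
  · have ha3 : (3 : ℝ) ≤ a := by exact_mod_cast h1
    have ha4 : (a : ℝ) + 1 ≤ 2 * g := by exact_mod_cast h2
    have key : 2 * (2 * (g : ℝ) ^ 2 + 1) * (g + 4) *
        ((2 * (g : ℝ) + 9) * ((a : ℝ) * (a - 1) / 2) - (2 * g + 1) * a * b +
          (2 * (g : ℝ) ^ 2 + 1) / (g + 4) * (b * (b - 1) / 2) + 3 * g * b - 1 / 30) =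
        ((2 * (g : ℝ) ^ 2 + 1) * b - ((2 * g + 1) * a * (g + 4) + (2 * (g : ℝ) ^ 2 + 1) / 2
          - 3 * g * (g + 4))) ^ 2 +
        ((8 * (g : ℝ) ^ 4 + 84 * g ^ 3 + 119 * g ^ 2 - 273 * g + 239 / 4
          - (2 * (g : ℝ) ^ 2 + 1) * (g + 4) / 15) +
        (2 * (g : ℝ) ^ 2 + 15 * g - 5) * (g + 4) * ((a - 3) * (2 * g - 1 - a))) := by
      field_simp
      ring
    have hE : 0 ≤ 8 * (g : ℝ) ^ 4 + 84 * g ^ 3 + 119 * g ^ 2 - 273 * g + 239 / 4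
          - (2 * (g : ℝ) ^ 2 + 1) * (g + 4) / 15 := by
      obtain ⟨t, ht⟩ : ∃ t : ℝ, (g : ℝ) = 2 + t := ⟨g - 2, by ring⟩
      have ht0 : 0 ≤ t := by linarith
      rw [ht]
      ring_nf
      positivity
    have hK : 0 ≤ (2 * (g : ℝ) ^ 2 + 15 * g - 5) * (g + 4) * ((a - 3) * (2 * g - 1 - a)) := by
      apply mul_nonneg
      · apply mul_nonneg _ hP.le
        nlinarith
      · exact mul_nonneg (by linarith) (by linarith)
    have hR : 0 ≤ 2 * (2 * (g : ℝ) ^ 2 + 1) * (g + 4) *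
        ((2 * (g : ℝ) + 9) * ((a : ℝ) * (a - 1) / 2) - (2 * g + 1) * a * b +
          (2 * (g : ℝ) ^ 2 + 1) / (g + 4) * (b * (b - 1) / 2) + 3 * g * b - 1 / 30) := by
      rw [key]
      exact add_nonneg (sq_nonneg _) (add_nonneg hE hK)
    have hpos : 0 < 2 * (2 * (g : ℝ) ^ 2 + 1) * (g + 4) := by positivity
    have := nonneg_of_mul_nonneg_right hR hpos
    linarith

end Pool.Agent.MNU.H82
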